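import Pool.Agent.Helper3.EL.Defs

/-!
# Project EL, module EL-E: the pairing kernel of one graph
-/

set_option autoImplicit false

namespace Pool.Agent.Helper3.EL

open Finset Pool.Agent.Lead.TB Pool.Agent.Lead.TB.Halves Pool.Agent.Helper84.TL

/-- Sets which contain exactly one element of every pair of two pairings: at most `2 ^ ncl`. -/
theorem card_alt {E : Type} [Fintype E] [DecidableEq E] (ρ γ : E → E) :
    (univ.filter fun K : Finset E => ∀ e, (e ∈ K ↔ ρ e ∉ K) ∧ (e ∈ K ↔ γ e ∉ K)).card ≤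
      2 ^ ncl ρ γ := by
  classical
  have : Fintype (Quot fun x y : E => y = ρ x ∨ y = γ x) := Fintype.ofFinite _
  have h1 : 2 ^ ncl ρ γ =
      (univ : Finset ((Quot fun x y : E => y = ρ x ∨ y = γ x) → Bool)).card := by
    rw [ncl, Nat.card_eq_fintype_card, card_univ, Fintype.card_fun, Fintype.card_bool]
  rw [h1]
  refine card_le_card_of_injOn (fun K q => decide (q.out ∈ K)) (fun _ _ => mem_coe.2 (mem_univ _)) ?_
  intro K₁ hK₁ K₂ hK₂ h
  have hK₁' := (mem_filter.1 (mem_coe.1 hK₁)).2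
  have hK₂' := (mem_filter.1 (mem_coe.1 hK₂)).2
  have h2 : ∀ q : Quot fun x y : E => y = ρ x ∨ y = γ x, (q.out ∈ K₁ ↔ q.out ∈ K₂) := by
    intro q
    have h3 := congrFun h q
    exact decide_eq_decide.1 h3
  let P : (Quot fun x y : E => y = ρ x ∨ y = γ x) → Prop :=
    Quot.lift (fun e => (e ∈ K₁ ↔ e ∈ K₂)) (by
      intro x y hxy
      apply propext
      have ha := hK₁' x
      have hb := hK₂' x
      rcases hxy with rfl | rfl
      · rw [ha.1, hb.1]
        exact not_iff_not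
      · rw [ha.2, hb.2]
        exact not_iff_not)
  have h4 : ∀ q, P q := by
    intro q
    rw [← Quot.out_eq q]
    exact h2 q
  ext e
  exact h4 (Quot.mk _ e)

theorem par_mem {X : Type} [Fintype X] [DecidableEq X] {m : ℕ} (f : X ≃ Fin m × Bool)
    (S : Finset X) (h : ∀ i : Fin m, (f.symm (i, true) ∈ S ↔ f.symm (i, false) ∉ S)) (x : X) :
    x ∈ S ↔ par f x ∉ S := by
  obtain ⟨⟨i, b⟩, rfl⟩ := f.symm.surjective x
  cases b
  · have h1 : par f (f.symm (i, false)) = f.symm (i, true) := by simp [par]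
    rw [h1, h i, not_not]
  · rw [par_true, h i]

open Classical in
/-- At most `2 ^ ncl` halves are compatible with a labelling. -/
theorem card_half_com {n m : ℕ} (G : Gr n) (l : Lab G m) :
    ((half m G).filter fun K => l ∈ com G m K).card ≤ 2 ^ ncl (parR G l) (parC G l) := by
  have h0 := card_alt (parR G l) (parC G l)
  refine le_trans ?_ h0
  refine card_le_card_of_injOn (fun K : Gr n => univ.filter fun e : Ed G => e.1.2 ∈ K e.1.1) ?_ ?_
  · intro K hK
    have hK' := (mem_filter.1 (mem_coe.1 hK)).2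
    rw [com, mem_product, Fintype.mem_piFinset, Fintype.mem_piFinset] at hK'
    refine mem_coe.2 (mem_filter.2 ⟨mem_univ _, fun e => ⟨?_, ?_⟩⟩)
    · have h1 := par_mem (l.1 e.1.1) (inR G K e.1.1) (mem_filter.1 (hK'.1 e.1.1)).2 ⟨e.1.2, e.2⟩
      rw [mem_inR, mem_inR] at h1
      simp only [mem_filter, mem_univ, true_and]
      exact h1
    · have h1 := par_mem (l.2 e.1.2) (inC G K e.1.2) (mem_filter.1 (hK'.2 e.1.2)).2 ⟨e.1.1, e.2⟩
      rw [mem_inC, mem_inC] at h1
      simp only [mem_filter, mem_univ, true_and]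
      exact h1
  · intro K₁ hK₁ K₂ hK₂ h
    have h1 := (mem_filter.1 (mem_coe.1 hK₁)).1
    have h2 := (mem_filter.1 (mem_coe.1 hK₂)).1
    rw [half, mem_filter] at h1 h2
    funext r
    ext c
    by_cases hc : c ∈ G r
    · have h3 := Finset.ext_iff.1 h ⟨(r, c), hc⟩
      simpa using h3
    · exact ⟨fun h4 => absurd (h1.2.1 r h4) hc, fun h4 => absurd (h2.2.1 r h4) hc⟩

theorem node {n m : ℕ} (G : Gr n) (hG : Reg (2 * m) G) :
    ∑ K ∈ half m G, Real.exp (-(Real.log 2 * wK m G K)) ≤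
      (((2 * m).factorial : ℝ) / (2 ^ m * (m.factorial : ℝ) ^ 2)) ^ (2 * n) := by
  classical
  set N : ℝ := (2 ^ m * (m.factorial : ℝ) ^ 2) ^ (2 * n) with hN
  have hNpos : 0 < N := by
    rw [hN]
    have : (0 : ℝ) < m.factorial := by exact_mod_cast m.factorial_pos
    positivity
  have hcard : ∀ K ∈ half m G, ((com G m K).card : ℝ) = N := by
    intro K hK
    rw [card_com G hG hK, hN]
    push_cast
    rfl
  have h1 : ∀ K ∈ half m G, Real.exp (-(Real.log 2 * wK m G K)) ≤
      ∑ l ∈ com G m K, N⁻¹ * (2 ^ ncl (parR G l) (parC G l))⁻¹ := by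
    intro K hK
    have h2 := convexOn_exp.map_sum_le (t := com G m K) (w := fun _ => N⁻¹)
      (p := fun l => -(Real.log 2 * (ncl (parR G l) (parC G l) : ℝ)))
      (fun _ _ => inv_nonneg.2 hNpos.le)
      (by rw [sum_const, nsmul_eq_mul, hcard K hK, mul_inv_cancel₀ hNpos.ne'])
      (fun _ _ => Set.mem_univ _)
    have h3 : -(Real.log 2 * wK m G K) = ∑ l ∈ com G m K,
        N⁻¹ • (-(Real.log 2 * (ncl (parR G l) (parC G l) : ℝ))) := by
      simp only [smul_eq_mul]
      rw [← mul_sum, sum_neg_distrib, ← mul_sum, wK, hcard K hK]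
      ring
    rw [h3]
    refine h2.trans (le_of_eq (sum_congr rfl fun l _ => ?_))
    rw [smul_eq_mul, Real.exp_neg, mul_comm (Real.log 2), Real.exp_nat_mul,
      Real.exp_log (by norm_num)]
  refine (sum_le_sum h1).trans ?_
  have h4 : ∑ K ∈ half m G, ∑ l ∈ com G m K, N⁻¹ * ((2 : ℝ) ^ ncl (parR G l) (parC G l))⁻¹ =
      ∑ l : Lab G m, ∑ K ∈ (half m G).filter (fun K => l ∈ com G m K),
        N⁻¹ * ((2 : ℝ) ^ ncl (parR G l) (parC G l))⁻¹ := by
    refine sum_comm' ?_
    intro K l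
    simp only [mem_filter, mem_univ, and_true]
  rw [h4]
  have h5 : ∀ l : Lab G m, ∑ K ∈ (half m G).filter (fun K => l ∈ com G m K),
      N⁻¹ * ((2 : ℝ) ^ ncl (parR G l) (parC G l))⁻¹ ≤ N⁻¹ := by
    intro l
    rw [sum_const, nsmul_eq_mul]
    have h6 : (((half m G).filter fun K => l ∈ com G m K).card : ℝ) ≤
        2 ^ ncl (parR G l) (parC G l) := by
      exact_mod_cast card_half_com G l
    have h7 : (0 : ℝ) < 2 ^ ncl (parR G l) (parC G l) := by positivity
    calc (((half m G).filter fun K => l ∈ com G m K).card : ℝ) *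
          (N⁻¹ * ((2 : ℝ) ^ ncl (parR G l) (parC G l))⁻¹)
        ≤ 2 ^ ncl (parR G l) (parC G l) * (N⁻¹ * ((2 : ℝ) ^ ncl (parR G l) (parC G l))⁻¹) :=
          mul_le_mul_of_nonneg_right h6 (by positivity)
      _ = N⁻¹ := by field_simp
  refine (sum_le_sum fun l _ => h5 l).trans ?_
  rw [sum_const, nsmul_eq_mul, card_univ, card_Lab G hG, div_pow, ← hN]
  push_cast
  rw [div_eq_mul_inv]

end Pool.Agent.Helper3.EL
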